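import Pool.Agent.E8helper4.FV.Stm2
import Pool.Agent.E8helper81.FV.B2

/-!
Project FV2, piece D3: the Sturm type argument for curvature `≥ 0`.
-/

set_option autoImplicit false

open Set Filter Topology

namespace Pool.Agent.E8helper81.FV2

open Pool.Agent.E8helper4.FV Pool.Agent.E8helper81.FV

/-- the data -/
structure Dat (f h th om v κ κ1 : ℝ → ℝ) : Prop where
  df : ∀ t, HasDerivAt f (v t - om t * h t) t
  dh : ∀ t, HasDerivAt h (om t * f t) t
  dth : ∀ t, HasDerivAt th (om t) t
  dκ : ∀ t, HasDerivAt κ (κ1 t) t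
  pv : ∀ t, 0 < v t
  nκ : ∀ t, 0 ≤ κ t
  eo : ∀ t, om t = κ t * v t
  mth : StrictMono th

lemma hasDerivAt_flip {f : ℝ → ℝ} {c t : ℝ} (h : HasDerivAt f c (-t)) :
    HasDerivAt (fun t => f (-t)) (-c) t := by
  exact (h.comp t (hasDerivAt_neg' t)).congr_deriv (by ring)

variable {f h th om v κ κ1 : ℝ → ℝ}

lemma Dat.rev (D : Dat f h th om v κ κ1) :
    Dat (fun t => -f (-t)) (fun t => h (-t)) (fun t => -th (-t)) (fun t => om (-t))
      (fun t => v (-t)) (fun t => κ (-t)) (fun t => -κ1 (-t)) where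
  df := fun t => (hasDerivAt_flip (D.df (-t))).neg.congr_deriv (by ring)
  dh := fun t => (hasDerivAt_flip (D.dh (-t))).congr_deriv (by ring)
  dth := fun t => (hasDerivAt_flip (D.dth (-t))).neg.congr_deriv (by ring)
  dκ := fun t => hasDerivAt_flip (D.dκ (-t))
  pv := fun t => D.pv (-t)
  nκ := fun t => D.nκ (-t)
  eo := fun t => D.eo (-t)
  mth := fun a b hab => neg_lt_neg (D.mth (neg_lt_neg hab))

lemma Dat.om0 (D : Dat f h th om v κ κ1) (t : ℝ) : 0 ≤ om t := by
  rw [D.eo]
  exact mul_nonneg (D.nκ t) (D.pv t).le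

lemma Dat.pos (D : Dat f h th om v κ κ1) {t : ℝ} (ht : v t - om t * h t ≤ 0) :
    0 < κ t ∧ 1 / κ t - h t ≤ 0 := by
  have h1 : 0 < κ t := by
    rcases (D.nκ t).lt_or_eq with h0 | h0
    · exact h0
    · exfalso
      rw [D.eo, ← h0] at ht
      have := D.pv t
      simp only [zero_mul, sub_zero] at ht
      linarith
  refine ⟨h1, ?_⟩
  rw [D.eo] at ht
  have h2 : v t * (1 - κ t * h t) ≤ 0 := by linarith
  have h3 : 1 - κ t * h t ≤ 0 := by
    by_contra hc
    push Not at hc
    linarith [mul_pos (D.pv t) hc]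
  have h4 : 1 / κ t - h t = (1 - κ t * h t) / κ t := by field_simp
  rw [h4]
  exact div_nonpos_of_nonpos_of_nonneg h3 h1.le

/-- the sign of the derivative at the right end -/
lemma dle (f : ℝ → ℝ) (c a b : ℝ) (hab : a < b) (hf : HasDerivAt f c b) (fb : f b = 0)
    (hp : ∀ t ∈ Ioo a b, 0 < f t) : c ≤ 0 := by
  have h1 : Tendsto (slope f b) (𝓝[<] b) (𝓝 c) := by
    have := hasDerivAt_iff_tendsto_slope.1 hf
    exact this.mono_left (nhdsWithin_mono _ fun x hx => ne_of_lt hx)
  refine le_of_tendsto h1 ?_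
  filter_upwards [Ioo_mem_nhdsLT hab] with t ht
  rw [slope_def_field, fb, sub_zero]
  exact div_nonpos_of_nonneg_of_nonpos (hp t ht).le (by linarith [ht.2])

/-- the first zero to the right -/
lemma firstz (f : ℝ → ℝ) (hf : Continuous f) (p b : ℝ) (hpb : p < b) (fp : 0 < f p)
    (fb : f b = 0) : ∃ b', p < b' ∧ b' ≤ b ∧ f b' = 0 ∧ ∀ t ∈ Ico p b', 0 < f t := by
  have hc : IsCompact (Icc p b ∩ f ⁻¹' {0}) :=
    isCompact_Icc.inter_right (isClosed_singleton.preimage hf)
  obtain ⟨b', hb', hmin⟩ := hc.exists_isLeast ⟨b, ⟨hpb.le, le_rfl⟩, fb⟩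
  have h0 : f b' = 0 := hb'.2
  have hpb' : p < b' := by
    refine lt_of_le_of_ne hb'.1.1 fun h => ?_
    rw [h, h0] at fp
    exact lt_irrefl _ fp
  refine ⟨b', hpb', hb'.1.2, h0, ?_⟩
  intro t ht
  by_contra hcon
  push Not at hcon
  obtain ⟨s, hs, hfs⟩ := intermediate_value_Icc' ht.1 hf.continuousOn ⟨hcon, fp.le⟩
  have := hmin (a := s) ⟨⟨hs.1, hs.2.trans (ht.2.le.trans hb'.1.2)⟩, hfs⟩
  linarith [hs.2, ht.2]

/-- the last zero to the left -/
lemma lastz (f : ℝ → ℝ) (hf : Continuous f) (a p : ℝ) (hap : a < p) (fp : 0 < f p)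
    (fa : f a = 0) : ∃ a', a' < p ∧ a ≤ a' ∧ f a' = 0 ∧ ∀ t ∈ Ioc a' p, 0 < f t := by
  obtain ⟨b', h1, h2, h3, h4⟩ := firstz (fun t => f (-t)) (hf.comp continuous_neg) (-p) (-a)
    (neg_lt_neg hap) (by simpa using fp) (by simpa using fa)
  refine ⟨-b', by linarith, by linarith, h3, ?_⟩
  intro t ht
  have := h4 (-t) ⟨by linarith [ht.2], by linarith [ht.1]⟩
  simpa using this

lemma Dat.cf (D : Dat f h th om v κ κ1) : Continuous f :=
  continuous_iff_continuousAt.2 fun t => (D.df t).continuousAt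

lemma Dat.cκ (D : Dat f h th om v κ κ1) : Continuous κ :=
  continuous_iff_continuousAt.2 fun t => (D.dκ t).continuousAt

lemma Dat.cth (D : Dat f h th om v κ κ1) : Continuous th :=
  continuous_iff_continuousAt.2 fun t => (D.dth t).continuousAt

lemma Dat.ch (D : Dat f h th om v κ κ1) : Continuous h :=
  continuous_iff_continuousAt.2 fun t => (D.dh t).continuousAt

/-- first lemma -/
lemma Dat.L1 (D : Dat f h th om v κ κ1) (a b p : ℝ) (hab : th b - th a < Real.pi) (hap : a < p)
    (hpb : p < b) (fa : f a = 0) (fb : f b = 0) (fp : 0 < f p) :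
    ∃ t ∈ Ioo a b, 0 < f t ∧ 0 < κ1 t := by
  obtain ⟨a', hap', haa, fa', posl⟩ := lastz f D.cf a p hap fp fa
  obtain ⟨b', hpb', hbb, fb', posr⟩ := firstz f D.cf p b hpb fp fb
  have hpos : ∀ t ∈ Ioo a' b', 0 < f t := by
    intro t ht
    rcases le_or_gt t p with h | h
    · exact posl t ⟨ht.1, h⟩
    · exact posr t ⟨h.le, ht.2⟩
  have hab' : a' < b' := hap'.trans hpb'
  by_contra hcon
  push Not at hcon
  have hκ1 : ∀ t ∈ Ioo a' b', κ1 t ≤ 0 := fun t ht =>
    hcon t ⟨haa.trans_lt ht.1, ht.2.trans_le hbb⟩ (hpos t ht)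
  have hanti : AntitoneOn κ (Icc a' b') := by
    apply antitoneOn_of_deriv_nonpos (convex_Icc _ _) D.cκ.continuousOn
    · exact fun t _ => (D.dκ t).differentiableAt.differentiableWithinAt
    · intro t ht
      rw [interior_Icc] at ht
      rw [(D.dκ t).deriv]
      exact hκ1 t ht
  have hκb : 0 < κ b' := (D.pos (dle f _ a' b' hab' (D.df b') fb' hpos)).1
  have hκ : ∀ t ∈ Icc a' b', 0 < κ t := fun t ht =>
    hκb.trans_le (hanti ht (right_mem_Icc.2 hab'.le) ht.2)
  have hth : ∀ t ∈ Ioc a' b', 0 < Real.sin (th t - th a') := by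
    intro t ht
    apply Real.sin_pos_of_pos_of_lt_pi
    · linarith [D.mth ht.1]
    · have h1 := D.mth.monotone (ht.2.trans hbb)
      have h2 := D.mth.monotone haa
      linarith
  have hth0 : ∀ t ∈ Icc a' b', 0 ≤ Real.sin (th t - th a') := by
    intro t ht
    rcases ht.1.lt_or_eq with h | h
    · exact (hth t ⟨h, ht.2⟩).le
    · rw [← h]; simp
  have dΦ : ∀ t ∈ Icc a' b', HasDerivAt (fun t => (1 / κ t - h t) * Real.sin (th t - th a')
      - f t * Real.cos (th t - th a')) (-(κ1 t) / (κ t) ^ 2 * Real.sin (th t - th a')) t := by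
    intro t ht
    have h0 := (hκ t ht).ne'
    have h1 : HasDerivAt (fun t => 1 / κ t) (-(κ1 t) / (κ t) ^ 2) t := by
      have he : (fun t => 1 / κ t) = κ⁻¹ := by
        funext x
        simp
      rw [he]
      exact (D.dκ t).inv h0
    have h2 : HasDerivAt (fun t => th t - th a') (om t) t := (D.dth t).sub_const _
    have h3 := ((h1.sub (D.dh t)).mul h2.sin).sub ((D.df t).mul h2.cos)
    refine h3.congr_deriv ?_
    simp only [Pi.sub_apply]
    rw [D.eo]
    field_simp
    ring
  have cΦ : ContinuousOn (fun t => (1 / κ t - h t) * Real.sin (th t - th a')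
      - f t * Real.cos (th t - th a')) (Icc a' b') :=
    fun t ht => (dΦ t ht).continuousAt.continuousWithinAt
  have mΦ : MonotoneOn (fun t => (1 / κ t - h t) * Real.sin (th t - th a')
      - f t * Real.cos (th t - th a')) (Icc a' b') := by
    apply monotoneOn_of_deriv_nonneg (convex_Icc _ _) cΦ
    · intro t ht
      rw [interior_Icc] at ht
      exact (dΦ t ⟨ht.1.le, ht.2.le⟩).differentiableAt.differentiableWithinAt
    · intro t ht
      rw [interior_Icc] at ht
      rw [(dΦ t ⟨ht.1.le, ht.2.le⟩).deriv]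
      apply mul_nonneg
      · exact div_nonneg (by linarith [hκ1 t ht]) (sq_nonneg _)
      · exact hth0 t ⟨ht.1.le, ht.2.le⟩
  have pΦ : ∀ t ∈ Icc a' b', 0 ≤ (1 / κ t - h t) * Real.sin (th t - th a')
      - f t * Real.cos (th t - th a') := by
    intro t ht
    have h1 := mΦ (left_mem_Icc.2 hab'.le) ht ht.1
    simp only [sub_self, Real.sin_zero, mul_zero, fa', zero_mul] at h1
    exact h1
  have dΨ : ∀ t ∈ Icc p b', HasDerivAt (fun t => f t / Real.sin (th t - th a'))
      (om t * ((1 / κ t - h t) * Real.sin (th t - th a')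
      - f t * Real.cos (th t - th a')) / Real.sin (th t - th a') ^ 2) t := by
    intro t ht
    have h0 := (hκ t ⟨hap'.le.trans ht.1, ht.2⟩).ne'
    have h2 : HasDerivAt (fun t => th t - th a') (om t) t := (D.dth t).sub_const _
    have h3 := (D.df t).div h2.sin (hth t ⟨hap'.trans_le ht.1, ht.2⟩).ne'
    refine h3.congr_deriv ?_
    congr 1
    rw [D.eo]
    field_simp
  have mΨ : MonotoneOn (fun t => f t / Real.sin (th t - th a')) (Icc p b') := by
    apply monotoneOn_of_deriv_nonneg (convex_Icc _ _)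
    · exact fun t ht => (dΨ t ht).continuousAt.continuousWithinAt
    · intro t ht
      rw [interior_Icc] at ht
      exact (dΨ t ⟨ht.1.le, ht.2.le⟩).differentiableAt.differentiableWithinAt
    · intro t ht
      rw [interior_Icc] at ht
      rw [(dΨ t ⟨ht.1.le, ht.2.le⟩).deriv]
      exact div_nonneg (mul_nonneg (D.om0 t)
        (pΦ t ⟨hap'.le.trans ht.1.le, ht.2.le⟩)) (sq_nonneg _)
  have h1 := mΨ (left_mem_Icc.2 hpb'.le) (right_mem_Icc.2 hpb'.le) hpb'.le
  simp only [fb', zero_div] at h1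
  have h2 : 0 < f p / Real.sin (th p - th a') := div_pos fp (hth p ⟨hap', hpb'.le⟩)
  linarith

/-- second lemma -/
lemma Dat.L2 (D : Dat f h th om v κ κ1) (a z b : ℝ) (hab : th b - th a < Real.pi) (haz : a < z)
    (hzb : z < b) (fa : 0 < f a) (fz : f z = 0) (fb : 0 < f b) : ∃ t ∈ Ioo a b, κ1 t < 0 := by
  obtain ⟨z', haz', hzz, fz', pos⟩ := firstz f D.cf a z haz fa fz
  have hzb' : z' < b := hzz.trans_lt hzb
  by_contra hcon
  push Not at hcon
  have hκ1 : ∀ t ∈ Ioo z' b, 0 ≤ κ1 t := fun t ht => hcon t ⟨haz'.trans ht.1, ht.2⟩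
  have hmono : MonotoneOn κ (Icc z' b) := by
    apply monotoneOn_of_deriv_nonneg (convex_Icc _ _) D.cκ.continuousOn
    · exact fun t _ => (D.dκ t).differentiableAt.differentiableWithinAt
    · intro t ht
      rw [interior_Icc] at ht
      rw [(D.dκ t).deriv]
      exact hκ1 t ht
  obtain ⟨hκz, hρz⟩ := D.pos (dle f _ a z' haz' (D.df z') fz' fun t ht => pos t ⟨ht.1.le, ht.2⟩)
  have hκ : ∀ t ∈ Icc z' b, 0 < κ t := fun t ht =>
    hκz.trans_le (hmono (left_mem_Icc.2 hzb'.le) ht ht.1)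
  have hth : ∀ t ∈ Icc z' b, 0 ≤ Real.sin (th b - th t) := by
    intro t ht
    apply Real.sin_nonneg_of_nonneg_of_le_pi
    · linarith [D.mth.monotone ht.2]
    · have h1 := D.mth.monotone (haz'.le.trans ht.1)
      linarith
  have dK : ∀ t ∈ Icc z' b, HasDerivAt (fun t => (1 / κ t - h t) * Real.sin (th b - th t)
      + f t * Real.cos (th b - th t)) (-(κ1 t) / (κ t) ^ 2 * Real.sin (th b - th t)) t := by
    intro t ht
    have h0 := (hκ t ht).ne'
    have h1 : HasDerivAt (fun t => 1 / κ t) (-(κ1 t) / (κ t) ^ 2) t := by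
      have he : (fun t => 1 / κ t) = κ⁻¹ := by
        funext x
        simp
      rw [he]
      exact (D.dκ t).inv h0
    have h2 : HasDerivAt (fun t => th b - th t) (-om t) t := (D.dth t).const_sub _
    have h3 := ((h1.sub (D.dh t)).mul h2.sin).add ((D.df t).mul h2.cos)
    refine h3.congr_deriv ?_
    simp only [Pi.sub_apply]
    rw [D.eo]
    field_simp
    ring
  have aK : AntitoneOn (fun t => (1 / κ t - h t) * Real.sin (th b - th t)
      + f t * Real.cos (th b - th t)) (Icc z' b) := by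
    apply antitoneOn_of_deriv_nonpos (convex_Icc _ _)
    · exact fun t ht => (dK t ht).continuousAt.continuousWithinAt
    · intro t ht
      rw [interior_Icc] at ht
      exact (dK t ⟨ht.1.le, ht.2.le⟩).differentiableAt.differentiableWithinAt
    · intro t ht
      rw [interior_Icc] at ht
      rw [(dK t ⟨ht.1.le, ht.2.le⟩).deriv]
      apply mul_nonpos_of_nonpos_of_nonneg
      · exact div_nonpos_of_nonpos_of_nonneg (by linarith [hκ1 t ht]) (sq_nonneg _)
      · exact hth t ⟨ht.1.le, ht.2.le⟩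
  have h1 := aK (left_mem_Icc.2 hzb'.le) (right_mem_Icc.2 hzb'.le) hzb'.le
  simp only [sub_self, Real.sin_zero, Real.cos_zero, mul_zero, mul_one, zero_add, fz',
    zero_mul, add_zero] at h1
  have h2 := mul_nonpos_of_nonpos_of_nonneg hρz (hth z' (left_mem_Icc.2 hzb'.le))
  linarith

/-- the sign data on one interval -/
lemma Dat.pt (D : Dat f h th om v κ κ1) (a b p s : ℝ) (hs : s = 1 ∨ s = -1)
    (hab : th b - th a < Real.pi) (hap : a < p) (hpb : p < b) (fa : f a = 0) (fb : f b = 0)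
    (fp : 0 < s * f p) : Pt f (fun t => -κ1 t) a b s := by
  rcases hs with rfl | rfl
  · obtain ⟨t, ht, h1, h2⟩ := D.L1 a b p hab hap hpb fa fb (by linarith)
    exact ⟨t, ht, by linarith, by show 1 * -κ1 t < 0; linarith⟩
  · obtain ⟨t, ht, h1, h2⟩ := D.rev.L1 (-b) (-a) (-p) (by simp only [neg_neg]; linarith)
      (neg_lt_neg hpb) (neg_lt_neg hap) (by simp [fb]) (by simp [fa])
      (by simp only [neg_neg]; linarith)
    exact ⟨-t, ⟨by linarith [ht.2], by linarith [ht.1]⟩, by linarith,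
      by show -1 * -κ1 (-t) < 0; linarith⟩

lemma Dat.L2' (D : Dat f h th om v κ κ1) (a z b : ℝ) (hab : th b - th a < Real.pi) (haz : a < z)
    (hzb : z < b) (fa : f a < 0) (fz : f z = 0) (fb : f b < 0) : ∃ t ∈ Ioo a b, 0 < κ1 t := by
  obtain ⟨t, ht, h1⟩ := D.rev.L2 (-b) (-z) (-a) (by simp only [neg_neg]; linarith)
      (neg_lt_neg hzb) (neg_lt_neg haz) (by simpa using fb) (by simpa using fz)
      (by simpa using fa)
  exact ⟨-t, ⟨by linarith [ht.2], by linarith [ht.1]⟩, by linarith⟩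

/-- one segment -/
lemma Dat.seg (D : Dat f h th om v κ κ1) (a z b : ℝ) (hab : th b - th a < Real.pi)
    (haz : a < z) (hzb : z < b) (fz : f z = 0) (ha : f a * -κ1 a < 0) (hb : f b * -κ1 b < 0) :
    (-κ1 a * -κ1 b < 0 ∧ Ch (fun t => -κ1 t) 1 a b) ∨
      (0 < -κ1 a * -κ1 b ∧ Ch (fun t => -κ1 t) 2 a b) := by
  have hga : -κ1 a ≠ 0 := fun h => by rw [h] at ha; simp at ha
  have hgb : -κ1 b ≠ 0 := fun h => by rw [h] at hb; simp at hb
  rcases lt_or_gt_of_ne (mul_ne_zero hga hgb) with h | h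
  · left
    refine ⟨h, fun i => if i = 0 then a else b, by simp, by simp, ?_⟩
    intro i hi
    have : i = 0 := by omega
    subst this
    simp only [if_true, zero_add, one_ne_zero, if_false]
    exact ⟨haz.trans hzb, h⟩
  · right
    refine ⟨h, ?_⟩
    have hex : ∃ t ∈ Ioo a b, -κ1 a * -κ1 t < 0 ∧ -κ1 t * -κ1 b < 0 := by
      rcases lt_or_gt_of_ne hga with h1 | h1
      · have h2 : -κ1 b < 0 := by
          by_contra hc
          push Not at hc
          have := mul_nonneg_of_nonpos_of_nonpos h1.le (neg_nonpos.2 hc)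
          linarith
        have fa : 0 < f a := by
          by_contra hc
          push Not at hc
          linarith [mul_nonneg_of_nonpos_of_nonpos hc h1.le]
        have fb : 0 < f b := by
          by_contra hc
          push Not at hc
          linarith [mul_nonneg_of_nonpos_of_nonpos hc h2.le]
        obtain ⟨t, ht, hgt⟩ := D.L2 a z b hab haz hzb fa fz fb
        have hgt' : 0 < -κ1 t := by linarith
        exact ⟨t, ht, mul_neg_of_neg_of_pos h1 hgt', mul_neg_of_pos_of_neg hgt' h2⟩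
      · have h2 : 0 < -κ1 b := by
          by_contra hc
          push Not at hc
          linarith [mul_nonneg h1.le (neg_nonneg.2 hc)]
        have fa : f a < 0 := by
          by_contra hc
          push Not at hc
          linarith [mul_nonneg hc h1.le]
        have fb : f b < 0 := by
          by_contra hc
          push Not at hc
          linarith [mul_nonneg hc h2.le]
        obtain ⟨t, ht, hgt⟩ := D.L2' a z b hab haz hzb fa fz fb
        have hgt' : -κ1 t < 0 := by linarith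
        exact ⟨t, ht, mul_neg_of_pos_of_neg h1 hgt', mul_neg_of_neg_of_pos hgt' h2⟩
    obtain ⟨t, ht, h3, h4⟩ := hex
    refine ⟨fun i => if i = 0 then a else if i = 1 then t else b, by simp, by simp, ?_⟩
    intro i hi
    have : i = 0 ∨ i = 1 := by omega
    rcases this with rfl | rfl
    · simp only [if_true, zero_add, one_ne_zero, if_false]
      exact ⟨ht.1, h3⟩
    · simp only [if_true, one_ne_zero, if_false, Nat.reduceAdd, OfNat.ofNat_ne_zero,
        OfNat.ofNat_ne_one]
      exact ⟨ht.2, h4⟩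

/-- the sign analysis -/
lemma Dat.fin4 (D : Dat f h th om v κ κ1) (g : ℝ → ℝ) (hg : g = fun t => -κ1 t)
    (pth : ∀ t, th (t + 2 * Real.pi) = th t + 2 * Real.pi)
    (pf : ∀ s, f (s + 2 * Real.pi) = f s) (pg : ∀ s, g (s + 2 * Real.pi) = g s)
    (z0 z1 z2 z3 : ℝ) (h01 : z0 < z1) (h12 : z1 < z2) (h23 : z2 < z3)
    (h34 : z3 < z0 + 2 * Real.pi) (e2 : th z2 = th z0 + Real.pi) (e3 : th z3 = th z1 + Real.pi)
    (f0 : f z0 = 0) (f1 : f z1 = 0) (f2 : f z2 = 0) (f3 : f z3 = 0)
    (s0 s1 s2 s3 : ℝ) (o0 : s0 = 1 ∨ s0 = -1) (o1 : s1 = 1 ∨ s1 = -1) (o2 : s2 = 1 ∨ s2 = -1)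
    (o3 : s3 = 1 ∨ s3 = -1) (p0 : Pt f g z0 z1 s0) (p1 : Pt f g z1 z2 s1)
    (p2 : Pt f g z2 z3 s2) (p3 : Pt f g z3 (z0 + 2 * Real.pi) s3)
    (hne : ¬ (s1 = -s0 ∧ s2 = -s1 ∧ s3 = -s2)) : Six g := by
  have hpi := Real.pi_pos
  have hseg : ∀ a z b : ℝ, th b - th a < Real.pi → a < z → z < b → f z = 0 →
      f a * g a < 0 → f b * g b < 0 →
      (g a * g b < 0 ∧ Ch g 1 a b) ∨ (0 < g a * g b ∧ Ch g 2 a b) := by
    subst hg
    exact fun a z b => D.seg a z b
  obtain ⟨t0, ht0, a0, b0⟩ := p0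
  obtain ⟨t1, ht1, a1, b1⟩ := p1
  obtain ⟨t2, ht2, a2, b2⟩ := p2
  obtain ⟨t3, ht3, a3, b3⟩ := p3
  have sgn : ∀ s x y : ℝ, (s = 1 ∨ s = -1) → 0 < s * x → s * y < 0 → x * y < 0 := by
    intro s x y hs h1 h2
    have h3 : (s * x) * (s * y) < 0 := mul_neg_of_pos_of_neg h1 h2
    rcases hs with rfl | rfl
    · linarith
    · linarith
  have c0 := sgn _ _ _ o0 a0 b0
  have c1 := sgn _ _ _ o1 a1 b1
  have c2 := sgn _ _ _ o2 a2 b2
  have c3 := sgn _ _ _ o3 a3 b3
  have c4 : f (t0 + 2 * Real.pi) * g (t0 + 2 * Real.pi) < 0 := by rw [pf, pg]; exact c0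
  have m := D.mth
  have q0 := hseg t0 z1 t1 (by linarith [m ht0.1, m ht1.2]) ht0.2 ht1.1 f1 c0 c1
  have q1 := hseg t1 z2 t2 (by linarith [m ht1.1, m ht2.2]) ht1.2 ht2.1 f2 c1 c2
  have q2 := hseg t2 z3 t3 (by linarith [m ht2.1, m ht3.2, pth z0]) ht2.2 ht3.1 f3 c2 c3
  have q3 := hseg t3 (z0 + 2 * Real.pi) (t0 + 2 * Real.pi)
    (by linarith [m ht3.1, m ht0.2, pth t0]) ht3.2 (by linarith [ht0.1]) (by rw [pf]; exact f0)
    c3 c4
  rw [pg] at q3
  have g0 : g t0 ≠ 0 := fun h => by rw [h] at c0; simp at c0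
  have g1 : g t1 ≠ 0 := fun h => by rw [h] at c1; simp at c1
  have g2 : g t2 ≠ 0 := fun h => by rw [h] at c2; simp at c2
  have g3 : g t3 ≠ 0 := fun h => by rw [h] at c3; simp at c3
  have hsgn : ∀ s s' x y : ℝ, (s = 1 ∨ s = -1) → (s' = 1 ∨ s' = -1) → s * x < 0 → s' * y < 0 →
      x * y < 0 → s' = -s := by
    intro s s' x y hs hs' h1 h2 h3
    rcases hs with rfl | rfl <;> rcases hs' with rfl | rfl
    · exfalso; nlinarith
    · rfl
    · norm_num
    · exfalso; nlinarith
  have hfin : ∀ n : ℕ, Ch g n t0 (t0 + 2 * Real.pi) → 6 ≤ n → Six g :=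
    fun n h hn => h.six hn le_rfl g0
  rcases q0 with ⟨u0, k0⟩ | ⟨u0, k0⟩ <;> rcases q1 with ⟨u1, k1⟩ | ⟨u1, k1⟩ <;>
    rcases q2 with ⟨u2, k2⟩ | ⟨u2, k2⟩ <;> rcases q3 with ⟨u3, k3⟩ | ⟨u3, k3⟩
  all_goals first
    | (refine hfin _ (((k0.append k1).append k2).append k3) ?_
       omega)
    | (exfalso
       first
       | exact hne ⟨hsgn _ _ _ _ o0 o1 b0 b1 u0, hsgn _ _ _ _ o1 o2 b1 b2 u1,
           hsgn _ _ _ _ o2 o3 b2 b3 u2⟩
       | (have hpos : 0 < (g t0 * g t1) * (g t1 * g t2) * ((g t2 * g t3) * (g t3 * g t0)) := by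
            have : (g t0 * g t1) * (g t1 * g t2) * ((g t2 * g t3) * (g t3 * g t0))
              = (g t0 * g t1 * g t2 * g t3) ^ 2 := by ring
            rw [this]
            positivity
          have hneg : (g t0 * g t1) * (g t1 * g t2) * ((g t2 * g t3) * (g t3 * g t0)) < 0 := by
            first
            | exact mul_neg_of_pos_of_neg (mul_pos_of_neg_of_neg u0 u1)
                (mul_neg_of_neg_of_pos u2 u3)
            | exact mul_neg_of_pos_of_neg (mul_pos_of_neg_of_neg u0 u1)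
                (mul_neg_of_pos_of_neg u2 u3)
            | exact mul_neg_of_neg_of_pos (mul_neg_of_neg_of_pos u0 u1)
                (mul_pos_of_neg_of_neg u2 u3)
            | exact mul_neg_of_neg_of_pos (mul_neg_of_pos_of_neg u0 u1)
                (mul_pos_of_neg_of_neg u2 u3)
          linarith))

theorem t_D3 : D3 := by
  intro f h th om v κ κ1 t1 t2 t3 t4 p q df dh dth dκ _ pv nκ eo mth pth pf pκ h12 h23 h34 h41
    e3 e4 z1 z2 z3 z4 hdense hu hv
  have D : Dat f h th om v κ κ1 := ⟨df, dh, dth, dκ, pv, nκ, eo, mth⟩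
  have hpi := Real.pi_pos
  have pκ1 : ∀ s, κ1 (s + 2 * Real.pi) = κ1 s := by
    intro s
    have h1 : HasDerivAt (fun x => κ (x + 2 * Real.pi)) (κ1 (s + 2 * Real.pi)) s :=
      (dκ (s + 2 * Real.pi)).comp_add_const s (2 * Real.pi)
    have h2 : (fun x => κ (x + 2 * Real.pi)) = κ := funext pκ
    rw [h2] at h1
    exact h1.unique (dκ s)
  have pg : ∀ s, (fun t => -κ1 t) (s + 2 * Real.pi) = (fun t => -κ1 t) s := by
    intro s
    simp only [pκ1]
  have z5 : f (t1 + 2 * Real.pi) = 0 := by rw [pf, z1]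
  have m12 := mth h12
  have m23 := mth h23
  have m34 := mth h34
  have m41 := mth h41
  rw [pth] at m41
  -- the lengths
  have l1 : th t2 - th t1 < Real.pi := by linarith
  have l2 : th t3 - th t2 < Real.pi := by linarith
  have l3 : th t4 - th t3 < Real.pi := by linarith
  have l4 : th (t1 + 2 * Real.pi) - th t4 < Real.pi := by rw [pth]; linarith
  set g : ℝ → ℝ := fun t => -κ1 t with hg
  -- every interval has a sign
  have any : ∀ a b : ℝ, a < b → th b - th a < Real.pi → f a = 0 → f b = 0 →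
      Pt f g a b 1 ∨ Pt f g a b (-1) := by
    intro a b hab hl fa fb
    obtain ⟨p, hp, hfp⟩ := hdense a b hab
    rcases lt_or_gt_of_ne hfp with h | h
    · right
      exact D.pt a b p (-1) (Or.inr rfl) hl hp.1 hp.2 fa fb (by linarith)
    · left
      exact D.pt a b p 1 (Or.inl rfl) hl hp.1 hp.2 fa fb (by linarith)
  -- the position of a point
  have loc : ∀ x s : ℝ, (s = 1 ∨ s = -1) →
      0 < s * (Real.sin (th x - th t1) * Real.sin (th x - th t2) * f x) →
      Pt f g t1 t2 (-s) ∨ Pt f g t2 t3 s ∨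
      Pt f g t3 t4 (-s) ∨ Pt f g t4 (t1 + 2 * Real.pi) s := by
    intro x s hs hx
    have h2pi : 0 < 2 * Real.pi := by linarith
    have hs' : -s = 1 ∨ -s = -1 := by
      rcases hs with rfl | rfl
      · right; rfl
      · left; norm_num
    -- reduce
    obtain ⟨y, hy, hxy⟩ : ∃ y ∈ Ico t1 (t1 + 2 * Real.pi),
        0 < s * (Real.sin (th y - th t1) * Real.sin (th y - th t2) * f y) := by
      have hper : Function.Periodic
          (fun x => s * (Real.sin (th x - th t1) * Real.sin (th x - th t2) * f x))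
            (2 * Real.pi) := by
        intro x
        show s * (Real.sin (th (x + 2 * Real.pi) - th t1) *
          Real.sin (th (x + 2 * Real.pi) - th t2)
          * f (x + 2 * Real.pi)) = s * (Real.sin (th x - th t1) * Real.sin (th x - th t2) * f x)
        rw [pf, pth, show th x + 2 * Real.pi - th t1 = th x - th t1 + 2 * Real.pi by ring,
          show th x + 2 * Real.pi - th t2 = th x - th t2 + 2 * Real.pi by ring,
          Real.sin_add_two_pi, Real.sin_add_two_pi]
      obtain ⟨y, hy, he⟩ := hper.exists_mem_Ico h2pi x t1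
      exact ⟨y, hy, by rw [← he]; exact hx⟩
    have hne : f y ≠ 0 := by
      intro h
      rw [h] at hxy
      simp at hxy
    have hy1 : y ≠ t1 := fun h => hne (by rw [h, z1])
    have hy2 : y ≠ t2 := fun h => hne (by rw [h, z2])
    have hy3 : y ≠ t3 := fun h => hne (by rw [h, z3])
    have hy4 : y ≠ t4 := fun h => hne (by rw [h, z4])
    have hys : t1 < y := lt_of_le_of_ne hy.1 (Ne.symm hy1)
    have mys := mth hys
    have myt := mth hy.2
    rw [pth] at myt
    have cancel : ∀ w : ℝ, 0 < w → 0 < s * (w * f y) → 0 < s * f y := by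
      intro w hw h
      by_contra hc
      push Not at hc
      have : s * (w * f y) = w * (s * f y) := by ring
      rw [this] at h
      linarith [mul_nonpos_of_nonneg_of_nonpos hw.le hc]
    have cancel' : ∀ w : ℝ, w < 0 → 0 < s * (w * f y) → 0 < -s * f y := by
      intro w hw h
      by_contra hc
      push Not at hc
      have : s * (w * f y) = -w * (-s * f y) := by ring
      rw [this] at h
      linarith [mul_nonpos_of_nonneg_of_nonpos (neg_pos.2 hw).le hc]
    rcases lt_or_gt_of_ne hy2 with h2 | h2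
    · left
      have m2 := mth h2
      refine D.pt t1 t2 y (-s) hs' l1 hys h2 z1 z2 (cancel' _ ?_ hxy)
      apply mul_neg_of_pos_of_neg
      · exact Real.sin_pos_of_pos_of_lt_pi (by linarith) (by linarith)
      · exact Real.sin_neg_of_neg_of_neg_pi_lt (by linarith) (by linarith)
    · have m2 := mth h2
      rcases lt_or_gt_of_ne hy3 with h3 | h3
      · right; left
        have m3 := mth h3
        refine D.pt t2 t3 y s hs l2 h2 h3 z2 z3 (cancel _ ?_ hxy)
        apply mul_pos
        · exact Real.sin_pos_of_pos_of_lt_pi (by linarith) (by linarith)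
        · exact Real.sin_pos_of_pos_of_lt_pi (by linarith) (by linarith)
      · have m3 := mth h3
        have e1 : Real.sin (th y - th t1) = -Real.sin (th y - Real.pi - th t1) := by
          rw [show th y - th t1 = th y - Real.pi - th t1 + Real.pi by ring, Real.sin_add_pi]
        rcases lt_or_gt_of_ne hy4 with h4 | h4
        · right; right; left
          have m4 := mth h4
          refine D.pt t3 t4 y (-s) hs' l3 h3 h4 z3 z4 (cancel' _ ?_ hxy)
          apply mul_neg_of_neg_of_pos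
          · rw [e1]
            have : 0 < Real.sin (th y - Real.pi - th t1) :=
              Real.sin_pos_of_pos_of_lt_pi (by linarith) (by linarith)
            linarith
          · exact Real.sin_pos_of_pos_of_lt_pi (by linarith) (by linarith)
        · right; right; right
          have m4 := mth h4
          refine D.pt t4 (t1 + 2 * Real.pi) y s hs l4 h4 hy.2 z4 z5 (cancel _ ?_ hxy)
          have e2 : Real.sin (th y - th t2) = -Real.sin (th y - Real.pi - th t2) := by
            rw [show th y - th t2 = th y - Real.pi - th t2 + Real.pi by ring, Real.sin_add_pi]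
          rw [e1, e2, neg_mul_neg]
          apply mul_pos
          · exact Real.sin_pos_of_pos_of_lt_pi (by linarith) (by linarith)
          · exact Real.sin_pos_of_pos_of_lt_pi (by linarith) (by linarith)
  have Lu := loc p 1 (Or.inl rfl) (by linarith)
  have Lv := loc q (-1) (Or.inr rfl) (by linarith)
  rw [neg_neg] at Lv
  have A0 := any t1 t2 h12 l1 z1 z2
  have A1 := any t2 t3 h23 l2 z2 z3
  have A2 := any t3 t4 h34 l3 z3 z4
  have A3 := any t4 (t1 + 2 * Real.pi) h41 l4 z4 z5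
  have F : ∀ s0 s1' s2' s3 : ℝ, (s0 = 1 ∨ s0 = -1) → (s1' = 1 ∨ s1' = -1) →
      (s2' = 1 ∨ s2' = -1) → (s3 = 1 ∨ s3 = -1) → Pt f g t1 t2 s0 →
      Pt f g t2 t3 s1' → Pt f g t3 t4 s2' →
      Pt f g t4 (t1 + 2 * Real.pi) s3 →
      ¬ (s1' = -s0 ∧ s2' = -s1' ∧ s3 = -s2') → Six g :=
    D.fin4 g hg pth pf pg t1 t2 t3 t4 h12 h23 h34 h41 e3 e4 z1 z2 z3 z4
  have o1 : (1 : ℝ) = 1 ∨ (1 : ℝ) = -1 := Or.inl rfl
  have o2 : (-1 : ℝ) = 1 ∨ (-1 : ℝ) = -1 := Or.inr rfl
  rcases A0 with a0 | a0 <;> rcases A1 with a1 | a1 <;> rcases A2 with a2 | a2 <;>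
    rcases A3 with a3 | a3
  all_goals first
    | (refine F _ _ _ _ ?_ ?_ ?_ ?_ a0 a1 a2 a3 ?_ <;> first | exact o1 | exact o2 | norm_num; done)
    | (rcases Lu with b | b | b | b <;> rcases Lv with c | c | c | c <;>
        first
        | (refine F _ _ _ _ ?_ ?_ ?_ ?_ b a1 a2 a3 ?_ <;>
            first | exact o1 | exact o2 | norm_num; done)
        | (refine F _ _ _ _ ?_ ?_ ?_ ?_ a0 b a2 a3 ?_ <;>
            first | exact o1 | exact o2 | norm_num; done)
        | (refine F _ _ _ _ ?_ ?_ ?_ ?_ a0 a1 b a3 ?_ <;>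
            first | exact o1 | exact o2 | norm_num; done)
        | (refine F _ _ _ _ ?_ ?_ ?_ ?_ a0 a1 a2 b ?_ <;>
            first | exact o1 | exact o2 | norm_num; done)
        | (refine F _ _ _ _ ?_ ?_ ?_ ?_ c a1 a2 a3 ?_ <;>
            first | exact o1 | exact o2 | norm_num; done)
        | (refine F _ _ _ _ ?_ ?_ ?_ ?_ a0 c a2 a3 ?_ <;>
            first | exact o1 | exact o2 | norm_num; done)
        | (refine F _ _ _ _ ?_ ?_ ?_ ?_ a0 a1 c a3 ?_ <;>
            first | exact o1 | exact o2 | norm_num; done)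
        | (refine F _ _ _ _ ?_ ?_ ?_ ?_ a0 a1 a2 c ?_ <;>
            first | exact o1 | exact o2 | norm_num; done))

end Pool.Agent.E8helper81.FV2
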